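import Pool.Agent.R645.NR.Main

set_option autoImplicit false

namespace Pool.Agent.Results.MP_28bf3c_nt.CubesNotNormal

open MeasureTheory Pool.Agent.R645.NR

universe u

/-- For every degree `d ≥ 3` there is a sequence `(p_n)` in `[0,1]` such that
`∑ s e^{-c R_d(s)}` converges for EVERY `c > 0`, and yet `X ^ d` is almost surely not normal in
base `2`.  In particular Q1 is false. -/
theorem result :
    (∀ d : ℕ, 3 ≤ d → ∃ p : ℕ → ℝ, (∀ n, p n ∈ Set.Icc (0 : ℝ) 1) ∧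
      (∀ c : ℝ, 0 < c → Summable (fun s : ℕ => (s : ℝ) * Real.exp (-c * R p d s))) ∧
      (∀ (Ω : Type u) [MeasurableSpace Ω] (μ : Measure Ω) (ξ : ℕ → Ω → Bool), Model p μ ξ →
        ∀ᵐ ω ∂μ, ¬ NormalInBase 2 (X ξ ω ^ d)) ∧
      ∃ (Ω : Type) (_ : MeasurableSpace Ω) (μ : Measure Ω) (ξ : ℕ → Ω → Bool), Model p μ ξ) ∧
    ¬ Q1 :=
  ⟨final1, final2⟩

end Pool.Agent.Results.MP_28bf3c_nt.CubesNotNormal
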