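import Pool.Agent.R345.NPProb

set_option autoImplicit false

/-!
# The summability criterion for the normality of random polynomial images fails for all `d ≥ 3`

For every `d ≥ 3` there is a sequence `(p_n)` such that `∑ s e^(-c R_d(s))` converges for EVERY constant
`c > 0`, although with probability at least `1/2` the number `X^d` is not normal in base `2` (the
frequency of the binary digit `0` does not tend to `1/2`).

Construction. Levels `a_0 < a_1 < ...` grow like a tower. The set `A` consists of the `i` such that for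
all `m` with `a_m ≤ i < 2^(a_m)` the residue of `i` modulo `16 d a_m` is less than `a_m`; here `p_i = 1/2`.
There are few auxiliary indices `f` outside of `A`, with small `p_f` of sum at most `1/2`, and `p_i = 0`
for all other `i`. The sets `{i, j, f} ∪ {1, ..., d-3}` with `i, j ∈ A` and one auxiliary `f` show that
`R_d(s)` is at least a constant times `√s`. But with probability at least `1/2` all auxiliary `ξ_f`
vanish, and then the sums `i_1 + ... + i_d` with `ξ_{i_1} = ... = ξ_{i_d} = 1`, all `i_k < 2^(a_m)`, have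
residues less than `d a_m` modulo `16 d a_m`, so that most of the first `2^(a_m)` binary digits of `X^d`
are `0`.
-/

namespace Pool.Agent.Results.MP_28bf3c_nt.PowersNotNormal

open Filter Topology MeasureTheory ProbabilityTheory

/-- The `n`-th digit (`n ≥ 1`) in base `b` of the fractional part of `y`. -/
noncomputable def digit (b : ℕ) (y : ℝ) (n : ℕ) : ℤ := ⌊y * (b : ℝ) ^ n⌋ % b

/-- The real number `y` is normal in base `b`: for every `k ≥ 1` and every word `w` of length `k` over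
`{0, ..., b-1}` the proportion of the positions `1 ≤ n ≤ N` at which `w` starts in the base `b` digit
sequence of `y` tends to `b ^ (-k)`. -/
def Normal (b : ℕ) (y : ℝ) : Prop :=
  ∀ k : ℕ, 1 ≤ k → ∀ w : Fin k → Fin b,
    Tendsto (fun N : ℕ => (((Finset.Icc 1 N).filter
        (fun n => ∀ i : Fin k, digit b y (n + i) = ((w i : ℕ) : ℤ))).card : ℝ) / N)
      atTop (𝓝 (((b : ℝ) ^ k)⁻¹))

/-- `y` is absolutely normal: normal to each base `b ≥ 2`. -/
def AbsolutelyNormal (y : ℝ) : Prop := ∀ b : ℕ, 2 ≤ b → Normal b y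

/-- `R_d(s)`: the sum of the products `v_{i_1} ⋯ v_{i_d}`, `v_i = p_i (1 - p_i)`, over all integers
`1 ≤ i_1 < ⋯ < i_d` with `i_1 + ⋯ + i_d = s` (written as a sum over the sets `{i_1, ..., i_d}`). -/
noncomputable def R (d : ℕ) (p : ℕ → ℝ) (s : ℕ) : ℝ :=
  ∑ I ∈ ((Finset.Icc 1 s).powersetCard d).filter (fun I => ∑ i ∈ I, i = s),
    ∏ i ∈ I, p i * (1 - p i)

/-- The random variables `ξ_n`, `n ≥ 1`, are independent, with values in `{0, 1}`, and the probability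
of `ξ_n = 1` is `p_n`. -/
def Model {Ω : Type} [MeasurableSpace Ω] (μ : Measure Ω) (ξ : ℕ → Ω → ℕ) (p : ℕ → ℝ) : Prop :=
  (∀ n, 1 ≤ n → Measurable (ξ n)) ∧ iIndepFun (fun n : ℕ => ξ (n + 1)) μ ∧
    (∀ n, 1 ≤ n → ∀ ω, ξ n ω = 0 ∨ ξ n ω = 1) ∧
    ∀ n, 1 ≤ n → μ {ω | ξ n ω = 1} = ENNReal.ofReal (p n)

/-- The random number `X = ∑_{n ≥ 1} ξ_n 2^{-n}`. -/
noncomputable def X {Ω : Type} (ξ : ℕ → Ω → ℕ) (ω : Ω) : ℝ :=
  ∑' n : ℕ, (ξ (n + 1) ω : ℝ) * (1 / 2 : ℝ) ^ (n + 1)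

/-- The statement Q1 of the problem. -/
def Q1 : Prop :=
  ∀ d : ℕ, 2 ≤ d → ∃ c : ℝ, 0 < c ∧ ∀ p : ℕ → ℝ, (∀ n, 0 ≤ p n ∧ p n ≤ 1) →
    ∀ P : Polynomial ℝ, P.natDegree = d →
      Summable (fun s : ℕ => (s : ℝ) * Real.exp (-c * R d p s)) →
        ∀ (Ω : Type) [MeasurableSpace Ω] (μ : Measure Ω) [IsProbabilityMeasure μ] (ξ : ℕ → Ω → ℕ),
          Model μ ξ p → ∀ᵐ ω ∂μ, AbsolutelyNormal (P.eval (X ξ ω))

/-- **Q1 is false, for every `d ≥ 3`.** For every `d ≥ 3` there is a sequence `(p_n)` in `[0, 1]` such that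
`∑ s e^(-c R_d(s)) < ∞` for every `c > 0`, independent `ξ_n` with these probabilities exist, and for all
such `ξ_n` the probability that `X^d` is not normal in base `2` is at least `1/2`. In particular the
statement Q1 is false. -/
theorem result :
    (∀ d : ℕ, 3 ≤ d → ∃ p : ℕ → ℝ, (∀ n, 0 ≤ p n ∧ p n ≤ 1) ∧
      (∀ c : ℝ, 0 < c → Summable (fun s : ℕ => (s : ℝ) * Real.exp (-c * R d p s))) ∧
      (∃ (Ω : Type) (_ : MeasurableSpace Ω) (μ : Measure Ω) (_ : IsProbabilityMeasure μ)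
        (ξ : ℕ → Ω → ℕ), Model μ ξ p) ∧
      ∀ (Ω : Type) [MeasurableSpace Ω] (μ : Measure Ω) [IsProbabilityMeasure μ] (ξ : ℕ → Ω → ℕ),
        Model μ ξ p → ENNReal.ofReal (1 / 2) ≤ μ {ω | ¬ Normal 2 ((X ξ ω) ^ d)}) ∧
    ¬ Q1 := by
  have main : ∀ d : ℕ, 3 ≤ d → ∃ p : ℕ → ℝ, (∀ n, 0 ≤ p n ∧ p n ≤ 1) ∧
      (∀ c : ℝ, 0 < c → Summable (fun s : ℕ => (s : ℝ) * Real.exp (-c * R d p s))) ∧
      (∃ (Ω : Type) (_ : MeasurableSpace Ω) (μ : Measure Ω) (_ : IsProbabilityMeasure μ)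
        (ξ : ℕ → Ω → ℕ), Model μ ξ p) ∧
      ∀ (Ω : Type) [MeasurableSpace Ω] (μ : Measure Ω) [IsProbabilityMeasure μ] (ξ : ℕ → Ω → ℕ),
        Model μ ξ p → ENNReal.ofReal (1 / 2) ≤ μ {ω | ¬ Normal 2 ((X ξ ω) ^ d)} := by
    intro d hd
    refine ⟨Pool.Agent.R345.NP.pr d, Pool.Agent.R345.NP.pr_mem d, fun c hc => ?_, ?_,
      fun Ω _ μ _ ξ h => ?_⟩
    · exact Pool.Agent.R345.NP.summ hd c hc
    · exact Pool.Agent.R345.NP.model_exists _ (Pool.Agent.R345.NP.pr_mem d)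
    · exact Pool.Agent.R345.NP.not_ae hd μ ξ h
  refine ⟨main, fun h => ?_⟩
  obtain ⟨c, hc, hQ⟩ := h 3 (by norm_num)
  obtain ⟨p, hp, hs, ⟨Ω, _, μ, _, ξ, hξ⟩, hno⟩ := main 3 le_rfl
  have h1 := hQ p hp (Polynomial.X ^ 3) (by simp) (hs c hc) Ω μ ξ hξ
  have h2 := hno Ω μ ξ hξ
  have h3 : μ {ω | ¬ Normal 2 ((X ξ ω) ^ 3)} = 0 := by
    refine measure_mono_null ?_ (ae_iff.1 h1)
    intro ω hω hA
    apply hω
    have h4 := hA 2 le_rfl
    rwa [Polynomial.eval_pow, Polynomial.eval_X] at h4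
  rw [h3] at h2
  have h4 : (0 : ENNReal) < ENNReal.ofReal (1 / 2) := ENNReal.ofReal_pos.2 (by norm_num)
  exact absurd h2 (not_le.2 h4)

end Pool.Agent.Results.MP_28bf3c_nt.PowersNotNormal
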